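import Mathlib
import Pool.Agent.Helper73_CrossIndex.Dold

/-!
# Brouwer fixed point theorem, from the Borsuk–Ulam–Dold theorem for joins
-/

namespace Pool.Agent.Common_Brouwer

open Pool.Agent.Helper73_CrossIndex

/-- The `ℓ¹` norm of a finite real vector. -/
noncomputable def l1 {ι : Type*} [Fintype ι] (x : ι → ℝ) : ℝ := ∑ i, |x i|

lemma l1_nonneg {ι : Type*} [Fintype ι] (x : ι → ℝ) : 0 ≤ l1 x :=
  Finset.sum_nonneg fun _ _ => abs_nonneg _

lemma l1_neg {ι : Type*} [Fintype ι] (x : ι → ℝ) : l1 (-x) = l1 x := by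
  simp [l1]

lemma l1_pos {ι : Type*} [Fintype ι] {x : ι → ℝ} (h : x ≠ 0) : 0 < l1 x := by
  obtain ⟨i, hi⟩ := Function.ne_iff.1 h
  exact Finset.sum_pos' (fun j _ => abs_nonneg _) ⟨i, Finset.mem_univ _, abs_pos.2 hi⟩

lemma continuous_l1 {ι : Type*} [Fintype ι] : Continuous (l1 : (ι → ℝ) → ℝ) := by
  unfold l1
  fun_prop

lemma l1_smul {ι : Type*} [Fintype ι] (c : ℝ) (x : ι → ℝ) : l1 (c • x) = |c| * l1 x := by
  simp [l1, abs_mul, Finset.mul_sum]

lemma l1_add_le {ι : Type*} [Fintype ι] (x y : ι → ℝ) : l1 (x + y) ≤ l1 x + l1 y := by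
  simp only [l1, ← Finset.sum_add_distrib]
  exact Finset.sum_le_sum fun i _ => abs_add_le _ _

section

/-- Signed coordinates of a point of the realisation. -/
noncomputable def sx {n : ℕ} (z : (E ℤˣ n).Realization) (i : Fin (n + 1)) : ℝ :=
  z.coord (⟨1, i⟩ : EVertex ℤˣ n) - z.coord (⟨-1, i⟩ : EVertex ℤˣ n)

lemma continuous_sx {n : ℕ} : Continuous (sx (n := n)) := by
  refine continuous_pi fun i => ?_
  unfold sx
  have h := continuous_coord (E ℤˣ n)
  exact ((continuous_apply (⟨1, i⟩ : EVertex ℤˣ n)).comp h).sub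
    ((continuous_apply (⟨-1, i⟩ : EVertex ℤˣ n)).comp h)

lemma sum_EVertex {n : ℕ} (f : EVertex ℤˣ n → ℝ) :
    ∑ v, f v = ∑ i, (f ⟨1, i⟩ + f ⟨-1, i⟩) := by
  rw [← Equiv.sum_comp (EVertex.equiv ℤˣ n).symm f, Fintype.sum_prod_type_right]
  refine Finset.sum_congr rfl fun i _ => ?_
  have : (Finset.univ : Finset ℤˣ) = {1, -1} := by decide
  rw [this, Finset.sum_pair (by decide)]
  rfl

lemma l1_sx {n : ℕ} (z : (E ℤˣ n).Realization) : l1 (sx z) = 1 := by
  have h2 := (sum_EVertex (fun v : EVertex ℤˣ n => z.coord v)).symm.trans z.sum_eq_one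
  rw [← h2]
  unfold l1 sx
  refine Finset.sum_congr rfl fun i _ => ?_
  obtain ⟨s, hs, hx⟩ := z.support_subset
  have hp := z.nonneg (⟨1, i⟩ : EVertex ℤˣ n)
  have hq := z.nonneg (⟨-1, i⟩ : EVertex ℤˣ n)
  by_cases ha : z.coord (⟨1, i⟩ : EVertex ℤˣ n) = 0
  · rw [ha, zero_sub, abs_neg, abs_of_nonneg hq, zero_add]
  · by_cases hb : z.coord (⟨-1, i⟩ : EVertex ℤˣ n) = 0
    · rw [hb, sub_zero, abs_of_nonneg hp, add_zero]
    · exfalso
      have h3 : (⟨1, i⟩ : EVertex ℤˣ n) = ⟨-1, i⟩ := hs.2 _ (hx _ ha) _ (hx _ hb) rfl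
      have h4 : (1 : ℤˣ) = -1 := congrArg EVertex.elt h3
      exact absurd h4 (by decide)

/-- Encoding of a non-zero vector as a point of the realisation. -/
noncomputable def enc {n : ℕ} (y : Fin (n + 1) → ℝ) (hy : y ≠ 0) : (E ℤˣ n).Realization where
  coord := fun v : EVertex ℤˣ n => max 0 (((v.elt : ℤ) : ℝ) * y v.lev) / l1 y
  nonneg := fun v : EVertex ℤˣ n => div_nonneg (le_max_left _ _) (l1_nonneg y)
  sum_eq_one := by
    have hpos := l1_pos hy
    change ∑ v : EVertex ℤˣ n, max 0 (((v.elt : ℤ) : ℝ) * y v.lev) / l1 y = 1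
    rw [← Finset.sum_div, div_eq_one_iff_eq hpos.ne',
      sum_EVertex (fun v : EVertex ℤˣ n => max 0 (((v.elt : ℤ) : ℝ) * y v.lev))]
    unfold l1
    refine Finset.sum_congr rfl fun i _ => ?_
    rcases le_total 0 (y i) with h | h
    · simp [h, abs_of_nonneg h]
    · simp [h, abs_of_nonpos h]
  support_subset := by
    classical
    have hpos := l1_pos hy
    obtain ⟨i, hi⟩ := Function.ne_iff.1 hy
    refine ⟨(Finset.univ.filter (fun v : EVertex ℤˣ n =>
      0 < ((v.elt : ℤ) : ℝ) * y v.lev) : Finset (EVertex ℤˣ n)), ⟨?_, ?_⟩, ?_⟩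
    · rcases lt_or_gt_of_ne hi with h | h
      · refine ⟨(⟨-1, i⟩ : EVertex ℤˣ n), Finset.mem_filter.2 ⟨Finset.mem_univ _, ?_⟩⟩
        simpa using h
      · refine ⟨(⟨1, i⟩ : EVertex ℤˣ n), Finset.mem_filter.2 ⟨Finset.mem_univ _, ?_⟩⟩
        simpa using h
    · rintro v hv w hw hvw
      have hv' : 0 < ((v.elt : ℤ) : ℝ) * y v.lev := (Finset.mem_filter.1 hv).2
      have hw' : 0 < ((w.elt : ℤ) : ℝ) * y w.lev := (Finset.mem_filter.1 hw).2
      refine EVertex.ext ?_ hvw
      rw [← hvw] at hw'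
      rcases Int.units_eq_one_or v.elt with h1 | h1 <;>
        rcases Int.units_eq_one_or w.elt with h2 | h2
      · rw [h1, h2]
      · rw [h1] at hv'; rw [h2] at hw'
        simp at hv' hw'
        linarith
      · rw [h1] at hv'; rw [h2] at hw'
        simp at hv' hw'
        linarith
      · rw [h1, h2]
    · intro v hv
      refine Finset.mem_filter.2 ⟨Finset.mem_univ _, ?_⟩
      by_contra hcon
      apply hv
      rw [max_eq_left (not_lt.1 hcon), zero_div]

lemma enc_neg {n : ℕ} (y : Fin (n + 1) → ℝ) (hy : y ≠ 0) (hy' : -y ≠ 0) :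
    enc (-y) hy' = (-1 : ℤˣ) • enc y hy := by
  refine GComplex.Realization.ext (funext fun v => ?_)
  change max 0 (((v.elt : ℤ) : ℝ) * (-y) v.lev) / l1 (-y) =
    max 0 (((((-1 : ℤˣ)⁻¹ * v.elt : ℤˣ) : ℤ) : ℝ) * y v.lev) / l1 y
  rw [l1_neg]
  simp

lemma enc_congr {n : ℕ} {y y' : Fin (n + 1) → ℝ} (h : y = y') (hy : y ≠ 0) (hy' : y' ≠ 0) :
    enc y hy = enc y' hy' := by
  subst h; rfl

lemma sx_neg {n : ℕ} (z : (E ℤˣ n).Realization) : sx ((-1 : ℤˣ) • z) = - sx z := by
  funext i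
  change z.coord (⟨(-1 : ℤˣ)⁻¹ * 1, i⟩ : EVertex ℤˣ n) -
    z.coord (⟨(-1 : ℤˣ)⁻¹ * -1, i⟩ : EVertex ℤˣ n) =
    -(z.coord (⟨1, i⟩ : EVertex ℤˣ n) - z.coord (⟨-1, i⟩ : EVertex ℤˣ n))
  simp

/-- Borsuk–Ulam in the form: a nowhere vanishing continuous vector field on the `ℓ¹` ball cannot
be odd on the boundary. -/
theorem no_odd (n : ℕ) (h : (Fin (n + 1) → ℝ) → (Fin (n + 1) → ℝ))
    (hc : ContinuousOn h {x | l1 x ≤ 1}) (h0 : ∀ x, l1 x ≤ 1 → h x ≠ 0)
    (hodd : ∀ x, l1 x = 1 → h (-x) = - h x) : False := by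
  classical
  set x' : (E ℤˣ (n + 1)).Realization → (Fin (n + 1) → ℝ) :=
    fun z i => sx z (Fin.castSucc i) with hx'
  set t : (E ℤˣ (n + 1)).Realization → ℝ := fun z => sx z (Fin.last (n + 1)) with ht
  have hx'c : Continuous x' := continuous_pi fun i => (continuous_apply _).comp continuous_sx
  have htc : Continuous t := (continuous_apply (Fin.last (n + 1))).comp continuous_sx
  have hsum : ∀ z, l1 (x' z) + |t z| = 1 := by
    intro z
    rw [← l1_sx z]
    unfold l1
    rw [Fin.sum_univ_castSucc (n := n + 1)]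
  have hle : ∀ z, l1 (x' z) ≤ 1 := fun z => by
    have := hsum z; have := abs_nonneg (t z); linarith
  have hle' : ∀ z, l1 (-(x' z)) ≤ 1 := fun z => by rw [l1_neg]; exact hle z
  set y : (E ℤˣ (n + 1)).Realization → (Fin (n + 1) → ℝ) :=
    fun z => if 0 ≤ t z then h (x' z) else - h (-(x' z)) with hy
  have hyc : Continuous y := by
    refine Continuous.if_le ?_ ?_ continuous_const htc ?_
    · exact hc.comp_continuous hx'c hle
    · exact (hc.comp_continuous hx'c.neg hle').neg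
    · intro z hz
      rw [hodd (x' z), neg_neg]
      have := hsum z
      rw [← hz, abs_zero, add_zero] at this
      exact this
  have hy0 : ∀ z, y z ≠ 0 := by
    intro z
    simp only [hy]
    split_ifs
    · exact h0 _ (hle z)
    · exact neg_ne_zero.2 (h0 _ (hle' z))
  have hxneg : ∀ z, x' ((-1 : ℤˣ) • z) = - x' z := by
    intro z; funext i
    simp only [hx', sx_neg, Pi.neg_apply]
  have htneg : ∀ z, t ((-1 : ℤˣ) • z) = - t z := by
    intro z
    simp only [ht, sx_neg, Pi.neg_apply]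
  have hyneg : ∀ z, y ((-1 : ℤˣ) • z) = - y z := by
    intro z
    simp only [hy, hxneg, htneg, neg_neg]
    rcases lt_trichotomy (t z) 0 with hz | hz | hz
    · rw [if_pos (by linarith), if_neg (by linarith), neg_neg]
    · rw [if_pos (by linarith), if_pos (by linarith), hodd]
      have := hsum z
      rw [hz, abs_zero, add_zero] at this
      exact this
    · rw [if_neg (by linarith), if_pos hz.le]
  have hnt : Nontrivial ℤˣ := ⟨1, -1, by decide⟩
  refine no_equivariant_map (G := ℤˣ) n (fun z => enc (y z) (hy0 z)) ?_ ?_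
  · rw [continuous_induced_rng]
    change Continuous fun z => fun v : EVertex ℤˣ n =>
      max 0 (((v.elt : ℤ) : ℝ) * y z v.lev) / l1 (y z)
    refine continuous_pi fun v => ?_
    refine Continuous.div ?_ (continuous_l1.comp hyc) fun z => (l1_pos (hy0 z)).ne'
    exact continuous_const.max (continuous_const.mul ((continuous_apply _).comp hyc))
  · intro g z
    rcases Int.units_eq_one_or g with rfl | rfl
    · rw [one_smul, one_smul]
    · have h3 : -y z ≠ 0 := neg_ne_zero.2 (hy0 z)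
      rw [← enc_neg (y z) (hy0 z) h3]
      exact enc_congr (hyneg z) _ _

/-- Brouwer fixed point theorem for the `ℓ¹` ball. -/
theorem brouwer_l1 (n : ℕ) (f : (Fin (n + 1) → ℝ) → (Fin (n + 1) → ℝ))
    (hc : ContinuousOn f {x | l1 x ≤ 1}) (hm : ∀ x, l1 x ≤ 1 → l1 (f x) ≤ 1) :
    ∃ x, l1 x ≤ 1 ∧ f x = x := by
  by_contra hcon
  push Not at hcon
  -- retraction onto the ball
  set r : (Fin (n + 1) → ℝ) → (Fin (n + 1) → ℝ) := fun x => (max 1 (l1 x))⁻¹ • x with hr
  have hmax : ∀ x : Fin (n + 1) → ℝ, 0 < max 1 (l1 x) := fun x => lt_max_of_lt_left one_pos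
  have hrc : Continuous r := by
    have h1 : Continuous fun x : Fin (n + 1) → ℝ => (max 1 (l1 x))⁻¹ :=
      Continuous.inv₀ (continuous_const.max continuous_l1) fun x => (hmax x).ne'
    exact h1.smul continuous_id
  have hrl : ∀ x, l1 (r x) ≤ 1 := by
    intro x
    simp only [hr]
    rw [l1_smul, abs_of_pos (inv_pos.2 (hmax x)), inv_mul_le_iff₀ (hmax x), mul_one]
    exact le_max_right _ _
  set v : (Fin (n + 1) → ℝ) → (Fin (n + 1) → ℝ) :=
    fun x => (2 : ℝ) • x - (min 1 (2 - 2 * l1 x)) • f (r ((2 : ℝ) • x)) with hv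
  refine no_odd n v ?_ ?_ ?_
  · apply Continuous.continuousOn
    have h1 : Continuous fun x : Fin (n + 1) → ℝ => (2 : ℝ) • x := continuous_const_smul 2
    have h2 : Continuous fun x : Fin (n + 1) → ℝ => min 1 (2 - 2 * l1 x) :=
      continuous_const.min (continuous_const.sub (continuous_const.mul continuous_l1))
    have h3 : Continuous fun x : Fin (n + 1) → ℝ => f (r ((2 : ℝ) • x)) :=
      hc.comp_continuous (hrc.comp h1) fun x => hrl _
    exact h1.sub (h2.smul h3)
  · intro x hx h0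
    have h1 : (2 : ℝ) • x = (min 1 (2 - 2 * l1 x)) • f (r ((2 : ℝ) • x)) := sub_eq_zero.1 h0
    have h2 : l1 ((2 : ℝ) • x) = 2 * l1 x := by rw [l1_smul]; norm_num
    have h3 : 0 ≤ min 1 (2 - 2 * l1 x) := le_min zero_le_one (by linarith)
    have h4 : l1 ((2 : ℝ) • x) ≤ min 1 (2 - 2 * l1 x) := by
      conv_lhs => rw [h1]
      rw [l1_smul, abs_of_nonneg h3]
      calc min 1 (2 - 2 * l1 x) * l1 (f (r ((2 : ℝ) • x))) ≤ min 1 (2 - 2 * l1 x) * 1 :=
            mul_le_mul_of_nonneg_left (hm _ (hrl _)) h3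
        _ = _ := mul_one _
    rw [h2] at h4
    have h5 : l1 x ≤ 1 / 2 := by
      have := h4.trans (min_le_left _ _); linarith
    have h6 : min 1 (2 - 2 * l1 x) = 1 := min_eq_left (by linarith)
    rw [h6, one_smul] at h1
    have h7 : r ((2 : ℝ) • x) = (2 : ℝ) • x := by
      simp only [hr]
      rw [h2, max_eq_left (by linarith), inv_one, one_smul]
    rw [h7] at h1
    exact hcon ((2 : ℝ) • x) (by rw [h2]; linarith) h1.symm
  · intro x hx
    simp only [hv, l1_neg, hx]
    norm_num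

/-- **Brouwer fixed point theorem** for the standard simplex. -/
theorem brouwer_stdSimplex {ι : Type*} [Fintype ι] [Nonempty ι] (f : (ι → ℝ) → (ι → ℝ))
    (hc : ContinuousOn f (stdSimplex ℝ ι)) (hm : Set.MapsTo f (stdSimplex ℝ ι) (stdSimplex ℝ ι)) :
    ∃ x ∈ stdSimplex ℝ ι, f x = x := by
  classical
  obtain ⟨n, hn⟩ : ∃ n : ℕ, Fintype.card ι = n + 1 :=
    ⟨Fintype.card ι - 1, (Nat.succ_pred_eq_of_pos Fintype.card_pos).symm⟩
  let e : ι ≃ Fin (n + 1) := Fintype.equivFinOfCardEq hn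
  -- retraction of the ball onto the simplex, in `ι`-coordinates
  set r : (Fin (n + 1) → ℝ) → (ι → ℝ) :=
    fun x i => |x (e i)| + (1 - l1 x) / (n + 1) with hr
  have hrc : Continuous r := by
    refine continuous_pi fun i => ?_
    refine ((continuous_apply _).abs).add ?_
    exact (continuous_const.sub continuous_l1).div_const _
  have hrs : ∀ x, l1 x ≤ 1 → r x ∈ stdSimplex ℝ ι := by
    intro x hx
    refine ⟨fun i => add_nonneg (abs_nonneg _) (div_nonneg (by linarith) (by positivity)), ?_⟩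
    simp only [hr]
    rw [Finset.sum_add_distrib, Finset.sum_const, Finset.card_univ, hn,
      Equiv.sum_comp e (fun j => |x j|), nsmul_eq_mul]
    have : ((n + 1 : ℕ) : ℝ) * ((1 - l1 x) / (n + 1)) = 1 - l1 x := by
      push_cast
      field_simp
    rw [this]
    change l1 x + (1 - l1 x) = 1
    ring
  have hl : ∀ y ∈ stdSimplex ℝ ι, l1 (fun j => y (e.symm j)) = 1 := by
    intro y hy
    unfold l1
    rw [Equiv.sum_comp e.symm (fun i => |y i|), ← hy.2]
    exact Finset.sum_congr rfl fun i _ => abs_of_nonneg (hy.1 i)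
  obtain ⟨x, hx, hfx⟩ := brouwer_l1 n (fun x j => f (r x) (e.symm j)) (by
    refine continuousOn_pi.2 fun j => ?_
    exact (continuous_apply _).comp_continuousOn (hc.comp hrc.continuousOn fun x hx => hrs x hx))
    (fun x hx => (hl _ (hm (hrs x hx))).le)
  have h1 : f (r x) ∈ stdSimplex ℝ ι := hm (hrs x hx)
  have h2 : l1 x = 1 := by
    rw [← hfx]; exact hl _ h1
  have h3 : ∀ i, x (e i) = f (r x) i := by
    intro i
    have := congrFun hfx (e i)
    simp only [Equiv.symm_apply_apply] at this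
    exact this.symm
  have h4 : r x = f (r x) := by
    funext i
    change |x (e i)| + (1 - l1 x) / (n + 1) = f (r x) i
    rw [h2, sub_self, zero_div, add_zero, h3 i, abs_of_nonneg (h1.1 i)]
  exact ⟨r x, hrs x hx, h4.symm⟩

end

end Pool.Agent.Common_Brouwer
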