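import Mathlib
import Pool.Agent.Common_Brouwer.Brouwer

/-!
# Schauder fixed point theorem for compact convex sets of a normed space
-/

namespace Pool.Agent.Common_Brouwer

open Set Metric

/-- **Schauder fixed point theorem** (compact convex sets of a real normed space); in finite
dimension this is the Brouwer fixed point theorem for compact convex sets. -/
theorem schauder {E : Type*} [NormedAddCommGroup E] [NormedSpace ℝ E] {K : Set E}
    (hK : IsCompact K) (hconv : Convex ℝ K) (hne : K.Nonempty) {f : E → E}
    (hf : ContinuousOn f K) (hm : MapsTo f K K) : ∃ x ∈ K, f x = x := by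
  classical
  -- approximate fixed points
  have happ : ∀ ε : ℝ, 0 < ε → ∃ x ∈ K, dist (f x) x ≤ ε := by
    intro ε hε
    obtain ⟨t, htK, hcov⟩ := hK.elim_nhds_subcover (fun x => ball x ε)
      (fun x _ => ball_mem_nhds x hε)
    have htne : t.Nonempty := by
      obtain ⟨x, hx⟩ := hne
      obtain ⟨p, hp, -⟩ := mem_iUnion₂.1 (hcov hx)
      exact ⟨p, hp⟩
    have hnt : Nonempty t := htne.to_subtype
    set κ : E → t → ℝ := fun z p => max 0 (ε - dist z p) with hκ
    have hκc : Continuous κ := by
      refine continuous_pi fun p => ?_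
      exact continuous_const.max (continuous_const.sub (continuous_id.dist continuous_const))
    have hκ0 : ∀ z p, 0 ≤ κ z p := fun z p => le_max_left _ _
    have hS : ∀ z ∈ K, 0 < ∑ p, κ z p := by
      intro z hz
      obtain ⟨p, hp, hzp⟩ := mem_iUnion₂.1 (hcov hz)
      refine Finset.sum_pos' (fun q _ => hκ0 z q) ⟨⟨p, hp⟩, Finset.mem_univ _, ?_⟩
      exact lt_max_of_lt_right (sub_pos.2 hzp)
    set L : (t → ℝ) → E := fun x => ∑ p, x p • (p : E) with hL
    have hLc : Continuous L := by
      refine continuous_finsetSum _ fun p _ => ?_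
      exact (continuous_apply p).smul continuous_const
    have hLK : ∀ x ∈ stdSimplex ℝ t, L x ∈ K := fun x hx =>
      hconv.sum_mem (fun p _ => hx.1 p) hx.2 (fun p _ => htK p p.2)
    obtain ⟨x, hx, hfx⟩ := brouwer_stdSimplex
      (fun x p => κ (f (L x)) p / ∑ q, κ (f (L x)) q) (by
        have h1 : ContinuousOn (fun x => f (L x)) (stdSimplex ℝ t) :=
          hf.comp hLc.continuousOn hLK
        have h2 : ContinuousOn (fun x => κ (f (L x))) (stdSimplex ℝ t) :=
          hκc.comp_continuousOn h1
        refine continuousOn_pi.2 fun p => ?_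
        refine ContinuousOn.div ((continuous_apply p).comp_continuousOn h2) ?_ ?_
        · exact continuousOn_finsetSum _ fun q _ => (continuous_apply q).comp_continuousOn h2
        · intro x hx
          exact (hS _ (hm (hLK x hx))).ne')
      (by
        intro x hx
        have hpos := hS _ (hm (hLK x hx))
        refine ⟨fun p => div_nonneg (hκ0 _ _) hpos.le, ?_⟩
        rw [← Finset.sum_div, div_self hpos.ne'])
    refine ⟨L x, hLK x hx, ?_⟩
    set z := f (L x) with hz
    have hpos := hS z (hm (hLK x hx))
    have hxe : ∀ p, x p = κ z p / ∑ q, κ z q := fun p => (congrFun hfx p).symm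
    have h1 : z - L x = ∑ p, x p • (z - (p : E)) := by
      simp only [hL, smul_sub, Finset.sum_sub_distrib, ← Finset.sum_smul, hx.2, one_smul]
    rw [dist_eq_norm, h1]
    calc ‖∑ p, x p • (z - (p : E))‖ ≤ ∑ p, ‖x p • (z - (p : E))‖ := norm_sum_le _ _
      _ ≤ ∑ p, x p * ε := by
        refine Finset.sum_le_sum fun p _ => ?_
        rw [norm_smul, Real.norm_of_nonneg (hx.1 p)]
        by_cases h0 : κ z p = 0
        · rw [hxe p, h0, zero_div, zero_mul, zero_mul]
        · have h2 : 0 < κ z p := lt_of_le_of_ne (hκ0 z p) (Ne.symm h0)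
          have h3 : dist z p < ε := by
            by_contra hcon
            push Not at hcon
            apply h0
            simp only [hκ]
            exact max_eq_left (by linarith)
          rw [dist_eq_norm] at h3
          exact mul_le_mul_of_nonneg_left h3.le (hx.1 p)
      _ = ε := by rw [← Finset.sum_mul, hx.2, one_mul]
  -- limit
  have hcont : ContinuousOn (fun x => dist (f x) x) K :=
    continuous_dist.comp_continuousOn (hf.prodMk continuousOn_id)
  obtain ⟨x, hx, hmin⟩ := hK.exists_isMinOn hne hcont
  refine ⟨x, hx, ?_⟩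
  by_contra hcon
  have hpos : 0 < dist (f x) x := dist_pos.2 hcon
  obtain ⟨y, hy, hle⟩ := happ (dist (f x) x / 2) (by linarith)
  have := isMinOn_iff.1 hmin y hy
  linarith

end Pool.Agent.Common_Brouwer
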